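import Pool.Agent.W502.POT.Tb3
import Pool.Agent.W502.POT.Tb4

/-!
# Permanent on top, 4x4: boolean checks of the blocks
-/

set_option autoImplicit false

namespace Pool.Agent.W502.POT

/-- boolean form of `good` -/
def gb (x : O) : Bool := Nat.beq x.cs (code (sw x.C)) && Nat.beq x.cd (code x.C)

lemma gb_good (x : O) (h : gb x = true) : good x := by
  simp only [gb, Bool.and_eq_true] at h
  exact ⟨Nat.eq_of_beq_eq_true h.1, Nat.eq_of_beq_eq_true h.2⟩

/-- boolean form of `okB` -/
def okBb (b : Bk) : Bool :=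
  Nat.blt 0 b.D && (b.xs.all (fun x => x.X.1.all gb && x.X.2.all gb) &&
    chk (b.D : ℤ) b.ds b.xs b.gs)

lemma okBb_ok (b : Bk) (h : okBb b = true) : okB b := by
  simp only [okBb, Bool.and_eq_true, List.all_eq_true] at h
  refine ⟨Nat.lt_of_lt_of_le Nat.zero_lt_one (Nat.le_of_ble_eq_true h.1), fun x hx => ?_, h.2.2⟩
  have := h.2.1 x hx
  exact ⟨fun y hy => gb_good y (this.1 y hy), fun y hy => gb_good y (this.2 y hy)⟩

end Pool.Agent.W502.POT
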