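import Pool.Agent.W502.POT.Sem

/-!
# Permanent on top, 4x4: a checked block is nonnegative
-/

set_option autoImplicit false

namespace Pool.Agent.W502.POT

open Finset
open scoped ComplexOrder

section
variable {d : ℕ} [NeZero d] (κ : Equiv.Perm (Fin 4) → Fin d → Fin d)
  (A : Matrix (Fin 4) (Fin 4) ℂ) (c : Fin d → ℂ)

/-- linear extension to lists -/
noncomputable def lin {J : Type} (v : J → O → ℂ) (j : J) (xs : List O) : ℂ :=
  (xs.map fun x => (x.s : ℂ) * v j x).sum

lemma S0_oR (n p q : ℕ) (l : List ℕ) :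
    S0 (oR κ A c) n p q l = n * (l.map fun e => TT κ A c e p q).sum := by
  induction l with
  | nil => simp [S0, oR]
  | cons e l ih =>
    change (n : ℝ) * TT κ A c e p q + S0 (oR κ A c) n p q l = _
    rw [ih, List.map_cons, List.sum_cons]
    ring

lemma S1_oR {J : Type} [Fintype J] (k : Kind) (r : ℝ) (v : J → O → ℂ)
    (hv : ∀ x y, good x → good y →
      r * (((cp k x y).map fun n => TT κ A c n x.p y.p).sum
        - ((cn k x y).map fun n => TT κ A c n x.p y.p).sum) =
        ∑ j, (star (v j x) * v j y).re) (x : O) (hx : good x) (ys : List O)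
    (hy : ∀ y ∈ ys, good y) :
    r * (S1 (oR κ A c) (cp k) x ys - S1 (oR κ A c) (cn k) x ys) =
      ∑ j, (star ((x.s : ℂ) * v j x) * lin v j ys).re := by
  induction ys with
  | nil => simp [S1, oR, lin]
  | cons y ys ih =>
    have e : ∀ cds, S1 (oR κ A c) cds x (y :: ys) =
        ((x.s * y.s : ℕ) : ℝ) * ((cds x y).map fun e => TT κ A c e x.p y.p).sum +
          S1 (oR κ A c) cds x ys := by
      intro cds
      rw [← S0_oR]
      rfl
    rw [e, e]
    have h1 := ih fun y hy' => hy y (List.mem_cons_of_mem _ hy')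
    have h2 := hv x y hx (hy y List.mem_cons_self)
    have h3 : r * (((x.s * y.s : ℕ) : ℝ) * ((cp k x y).map fun e => TT κ A c e x.p y.p).sum +
          S1 (oR κ A c) (cp k) x ys -
        (((x.s * y.s : ℕ) : ℝ) * ((cn k x y).map fun e => TT κ A c e x.p y.p).sum +
          S1 (oR κ A c) (cn k) x ys)) =
        ((x.s * y.s : ℕ) : ℝ) * (r * (((cp k x y).map fun n => TT κ A c n x.p y.p).sum
        - ((cn k x y).map fun n => TT κ A c n x.p y.p).sum)) +
        r * (S1 (oR κ A c) (cp k) x ys - S1 (oR κ A c) (cn k) x ys) := by ring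
    rw [h3, h1, h2, Finset.mul_sum, ← Finset.sum_add_distrib]
    refine Finset.sum_congr rfl fun j _ => ?_
    have h4 : lin v j (y :: ys) = (y.s : ℂ) * v j y + lin v j ys := by simp [lin]
    rw [h4, mul_add, Complex.add_re]
    congr 1
    have h5 : star ((x.s : ℂ) * v j x) * ((y.s : ℂ) * v j y) =
        (((x.s * y.s : ℕ) : ℝ) : ℂ) * (star (v j x) * v j y) := by
      rw [star_mul']
      simp
      ring
    rw [h5, Complex.re_ofReal_mul]

lemma S2_oR {J : Type} [Fintype J] (k : Kind) (r : ℝ) (v : J → O → ℂ)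
    (hv : ∀ x y, good x → good y →
      r * (((cp k x y).map fun n => TT κ A c n x.p y.p).sum
        - ((cn k x y).map fun n => TT κ A c n x.p y.p).sum) =
        ∑ j, (star (v j x) * v j y).re) (xs ys : List O) (hx : ∀ x ∈ xs, good x)
    (hy : ∀ y ∈ ys, good y) :
    r * (S2 (oR κ A c) (cp k) xs ys - S2 (oR κ A c) (cn k) xs ys) =
      ∑ j, (star (lin v j xs) * lin v j ys).re := by
  induction xs with
  | nil => simp [S2, oR, lin]
  | cons x xs ih =>
    have e : ∀ cds, S2 (oR κ A c) cds (x :: xs) ys =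
        S1 (oR κ A c) cds x ys + S2 (oR κ A c) cds xs ys := fun cds => rfl
    rw [e, e]
    have h1 := ih fun y hy' => hx y (List.mem_cons_of_mem _ hy')
    have h2 := S1_oR κ A c k r v hv x (hx x List.mem_cons_self) ys hy
    have h3 : r * (S1 (oR κ A c) (cp k) x ys + S2 (oR κ A c) (cp k) xs ys -
        (S1 (oR κ A c) (cn k) x ys + S2 (oR κ A c) (cn k) xs ys)) =
        r * (S1 (oR κ A c) (cp k) x ys - S1 (oR κ A c) (cn k) x ys) +
        r * (S2 (oR κ A c) (cp k) xs ys - S2 (oR κ A c) (cn k) xs ys) := by ring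
    rw [h3, h1, h2, ← Finset.sum_add_distrib]
    refine Finset.sum_congr rfl fun j _ => ?_
    have h4 : lin v j (x :: xs) = (x.s : ℂ) * v j x + lin v j xs := by simp [lin]
    rw [h4, star_add, add_mul, Complex.add_re]

/-- signed linear extension -/
noncomputable def slin {J : Type} (v : J → O → ℂ) (j : J) (X : List O × List O) : ℂ :=
  lin v j X.1 - lin v j X.2

/-- all members are consistent -/
def goodX (X : List O × List O) : Prop := (∀ x ∈ X.1, good x) ∧ ∀ x ∈ X.2, good x

lemma PN_oR {J : Type} [Fintype J] (k : Kind) (r : ℝ) (v : J → O → ℂ)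
    (hv : ∀ x y, good x → good y →
      r * (((cp k x y).map fun n => TT κ A c n x.p y.p).sum
        - ((cn k x y).map fun n => TT κ A c n x.p y.p).sum) =
        ∑ j, (star (v j x) * v j y).re) (X Y : List O × List O) (hX : goodX X) (hY : goodX Y) :
    r * (Pm (oR κ A c) k X Y - Nm (oR κ A c) k X Y) =
      ∑ j, (star (slin v j X) * slin v j Y).re := by
  have h11 := S2_oR κ A c k r v hv X.1 Y.1 hX.1 hY.1
  have h12 := S2_oR κ A c k r v hv X.1 Y.2 hX.1 hY.2
  have h21 := S2_oR κ A c k r v hv X.2 Y.1 hX.2 hY.1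
  have h22 := S2_oR κ A c k r v hv X.2 Y.2 hX.2 hY.2
  have e : ∀ j, (star (slin v j X) * slin v j Y).re =
      (star (lin v j X.1) * lin v j Y.1).re + (star (lin v j X.2) * lin v j Y.2).re -
      (star (lin v j X.1) * lin v j Y.2).re - (star (lin v j X.2) * lin v j Y.1).re := by
    intro j
    rw [← Complex.add_re, ← Complex.sub_re, ← Complex.sub_re]
    congr 1
    rw [slin, slin, star_sub]
    ring
  simp only [e, Finset.sum_sub_distrib, Finset.sum_add_distrib]
  rw [← h11, ← h12, ← h21, ← h22]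
  simp only [Pm, Nm]
  change r * (((S2 (oR κ A c) (cp k) X.1 Y.1 + S2 (oR κ A c) (cp k) X.2 Y.2) +
    (S2 (oR κ A c) (cn k) X.1 Y.2 + S2 (oR κ A c) (cn k) X.2 Y.1)) -
    ((S2 (oR κ A c) (cp k) X.1 Y.2 + S2 (oR κ A c) (cp k) X.2 Y.1) +
    (S2 (oR κ A c) (cn k) X.1 Y.1 + S2 (oR κ A c) (cn k) X.2 Y.2))) = _
  ring

/-- the partial sums entering the squares -/
noncomputable def UU {J : Type} (v : J → O → ℂ) (j : J) (m : ℕ) (xs : List En) : ℂ :=
  (xs.map fun x => ((x.v.getD m 0 : ℤ) : ℂ) * slin v j x.X).sum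

lemma dot3_eq (K : ℕ) : ∀ (ds : List ℕ) (vs ws : List ℤ), ds.length ≤ K →
    dot3 ds vs ws = ∑ m ∈ range K, (ds.getD m 0 : ℤ) * vs.getD m 0 * ws.getD m 0 := by
  induction K with
  | zero =>
    intro ds vs ws h
    have : ds = [] := by simpa using h
    subst this
    simp [dot3]
  | succ K ih =>
    intro ds vs ws h
    rw [Finset.sum_range_succ']
    cases ds with
    | nil => simp [dot3]
    | cons a ds =>
      cases vs with
      | nil => simp [dot3]
      | cons b vs =>
        cases ws with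
        | nil => simp [dot3]
        | cons e ws =>
          have := ih ds vs ws (by simpa using h)
          simp only [dot3, this, List.getD_cons_succ, List.getD_cons_zero]
          ring

/-- everything in a block is consistent -/
def goodE (xs : List En) : Prop := ∀ x ∈ xs, goodX x.X

lemma row_eq {J : Type} [Fintype J] (k : Kind) (r : ℝ) (v : J → O → ℂ)
    (hv : ∀ x y, good x → good y →
      r * (((cp k x y).map fun n => TT κ A c n x.p y.p).sum
        - ((cn k x y).map fun n => TT κ A c n x.p y.p).sum) =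
        ∑ j, (star (v j x) * v j y).re) (D : ℤ) (ds : List ℕ) (x : En) (hx : goodX x.X)
    (ys : List En) (gs : List (ℕ × ℕ)) (hy : goodE ys) (hc : chkRow D ds x 2 ys gs = true) :
    (D : ℝ) * r * (rowP (oR κ A c) k x ys gs - rowN (oR κ A c) k x ys gs) =
      ∑ j, ∑ m ∈ range ds.length, 2 * ((ds.getD m 0 : ℕ) : ℝ) *
        (star (((x.v.getD m 0 : ℤ) : ℂ) * slin v j x.X) * UU v j m ys).re := by
  induction ys generalizing gs with
  | nil =>
    cases gs with
    | nil => simp [rowP, rowN, UU]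
    | cons g gs => simp [chkRow] at hc
  | cons y ys ih =>
    cases gs with
    | nil => simp [chkRow] at hc
    | cons g gs =>
      simp only [chkRow, Bool.and_eq_true, decide_eq_true_eq] at hc
      have h1 := ih gs (fun y hy' => hy y (List.mem_cons_of_mem _ hy')) hc.2
      have h2 := PN_oR κ A c k r v hv x.X y.X hx (hy y List.mem_cons_self)
      have e1 : rowP (oR κ A c) k x (y :: ys) (g :: gs) =
          ((g.1 : ℝ) * Pm (oR κ A c) k x.X y.X + (g.2 : ℝ) * Nm (oR κ A c) k x.X y.X) +
            rowP (oR κ A c) k x ys gs := rfl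
      have e2 : rowN (oR κ A c) k x (y :: ys) (g :: gs) =
          ((g.1 : ℝ) * Nm (oR κ A c) k x.X y.X + (g.2 : ℝ) * Pm (oR κ A c) k x.X y.X) +
            rowN (oR κ A c) k x ys gs := rfl
      have h3 : (D : ℝ) * ((g.1 : ℝ) - (g.2 : ℝ)) = 2 * ((dot3 ds x.v y.v : ℤ) : ℝ) := by
        exact_mod_cast hc.1
      rw [e1, e2]
      have h4 : (D : ℝ) * r * ((g.1 : ℝ) * Pm (oR κ A c) k x.X y.X +
            (g.2 : ℝ) * Nm (oR κ A c) k x.X y.X + rowP (oR κ A c) k x ys gs -
          ((g.1 : ℝ) * Nm (oR κ A c) k x.X y.X + (g.2 : ℝ) * Pm (oR κ A c) k x.X y.X +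
            rowN (oR κ A c) k x ys gs)) =
          ((D : ℝ) * ((g.1 : ℝ) - (g.2 : ℝ))) *
            (r * (Pm (oR κ A c) k x.X y.X - Nm (oR κ A c) k x.X y.X)) +
          (D : ℝ) * r * (rowP (oR κ A c) k x ys gs - rowN (oR κ A c) k x ys gs) := by ring
      rw [h4, h1, h2, h3, Finset.mul_sum, ← Finset.sum_add_distrib]
      refine Finset.sum_congr rfl fun j _ => ?_
      have h5 : ∀ m, UU v j m (y :: ys) =
          ((y.v.getD m 0 : ℤ) : ℂ) * slin v j y.X + UU v j m ys := by
        intro m; simp [UU]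
      rw [dot3_eq ds.length ds x.v y.v le_rfl]
      push_cast
      rw [Finset.mul_sum, Finset.sum_mul, ← Finset.sum_add_distrib]
      refine Finset.sum_congr rfl fun m _ => ?_
      rw [h5, mul_add, Complex.add_re, mul_add]
      congr 1
      have h6 : star (((x.v.getD m 0 : ℤ) : ℂ) * slin v j x.X) *
          (((y.v.getD m 0 : ℤ) : ℂ) * slin v j y.X) =
          (((x.v.getD m 0 : ℤ) * (y.v.getD m 0 : ℤ) : ℝ) : ℂ) *
            (star (slin v j x.X) * slin v j y.X) := by
        rw [star_mul']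
        simp
        ring
      rw [h6, Complex.re_ofReal_mul]
      ring

lemma chkRow_one (D : ℤ) (ds : List ℕ) (x y : En) (ys : List En) (g : ℕ × ℕ)
    (gs : List (ℕ × ℕ)) (f : ℤ) (hc : chkRow D ds x f (y :: ys) (g :: gs) = true) :
    D * ((g.1 : ℤ) - (g.2 : ℤ)) = f * dot3 ds x.v y.v ∧ chkRow D ds x 2 ys gs = true := by
  simpa only [chkRow, Bool.and_eq_true, decide_eq_true_eq] using hc

theorem block_eq {J : Type} [Fintype J] (k : Kind) (r : ℝ) (v : J → O → ℂ)
    (hv : ∀ x y, good x → good y →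
      r * (((cp k x y).map fun n => TT κ A c n x.p y.p).sum
        - ((cn k x y).map fun n => TT κ A c n x.p y.p).sum) =
        ∑ j, (star (v j x) * v j y).re) (D : ℤ) (ds : List ℕ)
    (xs : List En) (gs : List (List (ℕ × ℕ))) (hx : goodE xs) (hc : chk D ds xs gs = true) :
    (D : ℝ) * r * (bP (oR κ A c) k xs gs - bN (oR κ A c) k xs gs) =
      ∑ j, ∑ m ∈ range ds.length, ((ds.getD m 0 : ℕ) : ℝ) * Complex.normSq (UU v j m xs) := by
  induction xs generalizing gs with
  | nil =>
    cases gs with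
    | nil => simp [bP, bN, UU]
    | cons g gs => simp [chk] at hc
  | cons x xs ih =>
    cases gs with
    | nil => simp [chk] at hc
    | cons g gs =>
      simp only [chk, Bool.and_eq_true] at hc
      have hxx := hx x List.mem_cons_self
      have hxs : goodE xs := fun y hy' => hx y (List.mem_cons_of_mem _ hy')
      have h1 := ih gs hxs hc.2
      cases g with
      | nil => simp [chkRow] at hc
      | cons g0 g =>
        obtain ⟨h0, h0'⟩ := chkRow_one D ds x x xs g0 g 1 hc.1
        have h2 := PN_oR κ A c k r v hv x.X x.X hxx hxx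
        have h3 := row_eq κ A c k r v hv D ds x hxx xs g hxs h0'
        have e1 : bP (oR κ A c) k (x :: xs) ((g0 :: g) :: gs) =
            (((g0.1 : ℝ) * Pm (oR κ A c) k x.X x.X + (g0.2 : ℝ) * Nm (oR κ A c) k x.X x.X) +
              rowP (oR κ A c) k x xs g) + bP (oR κ A c) k xs gs := rfl
        have e2 : bN (oR κ A c) k (x :: xs) ((g0 :: g) :: gs) =
            (((g0.1 : ℝ) * Nm (oR κ A c) k x.X x.X + (g0.2 : ℝ) * Pm (oR κ A c) k x.X x.X) +
              rowN (oR κ A c) k x xs g) + bN (oR κ A c) k xs gs := rfl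
        have h4 : (D : ℝ) * ((g0.1 : ℝ) - (g0.2 : ℝ)) = ((dot3 ds x.v x.v : ℤ) : ℝ) := by
          have : D * ((g0.1 : ℤ) - (g0.2 : ℤ)) = dot3 ds x.v x.v := by rw [h0, one_mul]
          exact_mod_cast this
        rw [e1, e2]
        have h5 : (D : ℝ) * r * (((g0.1 : ℝ) * Pm (oR κ A c) k x.X x.X +
              (g0.2 : ℝ) * Nm (oR κ A c) k x.X x.X) + rowP (oR κ A c) k x xs g +
              bP (oR κ A c) k xs gs -
            (((g0.1 : ℝ) * Nm (oR κ A c) k x.X x.X + (g0.2 : ℝ) * Pm (oR κ A c) k x.X x.X) +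
              rowN (oR κ A c) k x xs g + bN (oR κ A c) k xs gs)) =
            ((D : ℝ) * ((g0.1 : ℝ) - (g0.2 : ℝ))) *
              (r * (Pm (oR κ A c) k x.X x.X - Nm (oR κ A c) k x.X x.X)) +
            (D : ℝ) * r * (rowP (oR κ A c) k x xs g - rowN (oR κ A c) k x xs g) +
            (D : ℝ) * r * (bP (oR κ A c) k xs gs - bN (oR κ A c) k xs gs) := by ring
        rw [h5, h1, h2, h3, h4, Finset.mul_sum, ← Finset.sum_add_distrib,
          ← Finset.sum_add_distrib]
        refine Finset.sum_congr rfl fun j _ => ?_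
        rw [dot3_eq ds.length ds x.v x.v le_rfl]
        push_cast
        rw [Finset.sum_mul, ← Finset.sum_add_distrib, ← Finset.sum_add_distrib]
        refine Finset.sum_congr rfl fun m _ => ?_
        have h6 : UU v j m (x :: xs) =
            ((x.v.getD m 0 : ℤ) : ℂ) * slin v j x.X + UU v j m xs := by simp [UU]
        rw [h6, Complex.normSq_add]
        have h7 : (((x.v.getD m 0 : ℤ) : ℂ) * slin v j x.X *
            (starRingEnd ℂ) (UU v j m xs)).re =
            (star (((x.v.getD m 0 : ℤ) : ℂ) * slin v j x.X) * UU v j m xs).re := by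
          rw [← Complex.conj_re]
          congr 1
          simp
        rw [h7]
        have h8 : Complex.normSq (((x.v.getD m 0 : ℤ) : ℂ) * slin v j x.X) =
            ((x.v.getD m 0 : ℤ) : ℝ) ^ 2 * (star (slin v j x.X) * slin v j x.X).re := by
          rw [Complex.normSq_mul]
          have h9 : Complex.normSq ((x.v.getD m 0 : ℤ) : ℂ) = ((x.v.getD m 0 : ℤ) : ℝ) ^ 2 := by
            rw [← Complex.ofReal_intCast, Complex.normSq_ofReal, sq]
          rw [h9]
          congr 1
          simp [Complex.normSq_apply, Complex.mul_re]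
        rw [h8]
        ring

theorem block_nonneg (hA : A.PosSemidef) (k : Kind) (D : ℤ) (hD : 0 < D) (ds : List ℕ)
    (xs : List En) (gs : List (List (ℕ × ℕ))) (hx : goodE xs) (hc : chk D ds xs gs = true) :
    bN (oR κ A c) k xs gs ≤ bP (oR κ A c) k xs gs := by
  obtain ⟨J, hJ, r, v, hr, hv⟩ := gram κ A hA c k
  have h := block_eq κ A c k r v hv D ds xs gs hx hc
  have h2 : 0 ≤ (D : ℝ) * r * (bP (oR κ A c) k xs gs - bN (oR κ A c) k xs gs) := by
    rw [h]
    refine Finset.sum_nonneg fun j _ => Finset.sum_nonneg fun m _ => ?_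
    exact mul_nonneg (Nat.cast_nonneg _) (Complex.normSq_nonneg _)
  have h3 : 0 < (D : ℝ) * r := mul_pos (by exact_mod_cast hD) hr
  have h4 := nonneg_of_mul_nonneg_right h2 h3
  linarith

end

end Pool.Agent.W502.POT
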