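import Pool.Agent.W502.POT.Defs

/-!
# Permanent on top, 4x4: certificate checker, computing level and prime codes of monomials
-/

set_option autoImplicit false

namespace Pool.Agent.W502.POT

open Finset
open scoped ComplexOrder

/-! ### prime codes -/

/-- packed table of the sixteen primes attached to the entries of a 4x4 matrix -/
def PT : ℕ := 0x8b16944376fedf4ebf65d57

/-- the prime attached to the entry `(i,j)` (indices mod 4) -/
def pr (i j : ℕ) : ℕ :=
  Nat.land (Nat.shiftRight PT (Nat.mul 6 (Nat.add (Nat.mul 4 (Nat.mod i 4)) (Nat.mod j 4)))) 63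

/-- index mod 4 -/
def ix (i : ℕ) : Fin 4 := ⟨i % 4, Nat.mod_lt _ (by norm_num)⟩

lemma pr_ix (i j : ℕ) : pr i j = pr (ix i).val (ix j).val := by
  have h : ∀ a : ℕ, Nat.mod (a % 4) 4 = Nat.mod a 4 := fun a => Nat.mod_mod a 4
  simp [pr, ix, h]

lemma pr_prime (i j : Fin 4) : (pr i.val j.val).Prime := by
  revert i j; decide +kernel

lemma pr_inj (i j i' j' : Fin 4) (h : pr i.val j.val = pr i'.val j'.val) : i = i' ∧ j = j' := by
  revert i j i' j'; decide +kernel

/-- value of the monomial with code `n` -/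
noncomputable def chi (E : Fin 4 → Fin 4 → ℂ) (n : ℕ) : ℂ :=
  ∏ i : Fin 4, ∏ j : Fin 4, E i j ^ (n.factorization (pr i.val j.val))

lemma chi_mul (E : Fin 4 → Fin 4 → ℂ) (m n : ℕ) (hm : m ≠ 0) (hn : n ≠ 0) :
    chi E (m * n) = chi E m * chi E n := by
  simp only [chi, Nat.factorization_mul hm hn, Finsupp.add_apply, pow_add, Finset.prod_mul_distrib]

lemma chi_one (E : Fin 4 → Fin 4 → ℂ) : chi E 1 = 1 := by
  simp [chi]

lemma chi_pr (E : Fin 4 → Fin 4 → ℂ) (i j : ℕ) : chi E (pr i j) = E (ix i) (ix j) := by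
  rw [pr_ix]
  generalize ix i = a
  generalize ix j = b
  unfold chi
  rw [Finset.prod_eq_single a]
  · rw [Finset.prod_eq_single b]
    · simp [Nat.Prime.factorization (pr_prime a b)]
    · intro c _ hc
      rw [Nat.Prime.factorization (pr_prime a b), Finsupp.single_apply, if_neg, pow_zero]
      intro h
      exact hc (pr_inj _ _ _ _ h).2.symm
    · simp
  · intro c _ hc
    refine Finset.prod_eq_one fun e _ => ?_
    rw [Nat.Prime.factorization (pr_prime a b), Finsupp.single_apply, if_neg, pow_zero]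
    intro h
    exact hc (pr_inj _ _ _ _ h).1.symm
  · simp

lemma pr_ne (i j : ℕ) : pr i j ≠ 0 := by
  rw [pr_ix]; exact (pr_prime _ _).ne_zero

/-- code of a list of entries -/
def code : List (ℕ × ℕ) → ℕ
  | [] => 1
  | e :: l => Nat.mul (pr e.1 e.2) (code l)

lemma code_ne (l : List (ℕ × ℕ)) : code l ≠ 0 := by
  induction l with
  | nil => simp [code]
  | cons e l ih => exact Nat.mul_ne_zero (pr_ne _ _) ih

lemma chi_code (E : Fin 4 → Fin 4 → ℂ) (l : List (ℕ × ℕ)) :
    chi E (code l) = (l.map fun e => E (ix e.1) (ix e.2)).prod := by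
  induction l with
  | nil => simp [code, chi_one]
  | cons e l ih =>
    have : code (e :: l) = pr e.1 e.2 * code l := rfl
    rw [this, chi_mul _ _ _ (pr_ne _ _) (code_ne _), chi_pr, ih]
    simp

/-- transposed list -/
def sw (l : List (ℕ × ℕ)) : List (ℕ × ℕ) := l.map fun e => (e.2, e.1)

lemma chi_sw (E : Fin 4 → Fin 4 → ℂ) (hE : ∀ i j, E j i = star (E i j)) (l : List (ℕ × ℕ)) :
    chi E (code (sw l)) = star (chi E (code l)) := by
  rw [chi_code, chi_code]
  induction l with
  | nil => simp [sw]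
  | cons e l ih =>
    simp only [sw, List.map_cons, List.map_map, List.prod_cons, star_mul'] at *
    rw [ih, hE]

/-! ### loops -/

/-- an element of the spanning family of a block: multiplicity, codes, legs, index; `C` is the
list of contracted pairs, whose code is `cd` -/
structure O where
  s : ℕ
  cs : ℕ
  cd : ℕ
  w0 : ℕ
  w1 : ℕ
  u0 : ℕ
  u1 : ℕ
  p : ℕ
  C : List (ℕ × ℕ)

/-- consistency of the codes -/
def good (x : O) : Prop := x.cs = code (sw x.C) ∧ x.cd = code x.C

/-- an additive structure receiving the sums -/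
structure Ops (R : Type) where
  z : R
  ad : R → R → R
  sm : ℕ → R → R
  ps : ℕ → ℕ → ℕ → ℕ → R

/-- innermost loop -/
noncomputable def S0 {R : Type} (o : Ops R) (n p q : ℕ) (l : List ℕ) : R :=
  List.rec o.z (fun c _ ih => o.ad (o.ps n c p q) ih) l

/-- middle loop -/
noncomputable def S1 {R : Type} (o : Ops R) (cds : O → O → List ℕ) (x : O) (ys : List O) : R :=
  List.rec o.z (fun y _ ih => o.ad (S0 o (Nat.mul x.s y.s) x.p y.p (cds x y)) ih) ys

/-- outer loop -/
noncomputable def S2 {R : Type} (o : Ops R) (cds : O → O → List ℕ) (xs ys : List O) : R :=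
  List.rec o.z (fun x _ ih => o.ad (S1 o cds x ys) ih) xs

/-- block types -/
inductive Kind
  | D4
  | D3
  | A3
  | D2

/-- positive codes -/
def cp : Kind → O → O → List ℕ
  | .D4, x, y => [Nat.mul x.cs y.cd]
  | .D3, x, y => [Nat.mul (Nat.mul x.cs y.cd) (Nat.mul (pr x.w0 y.w0) (pr y.u0 x.u0))]
  | .A3, x, y => [Nat.mul (Nat.mul x.cs y.cd) (Nat.mul (pr y.u0 x.u0) (pr y.u1 x.u1))]
  | .D2, x, y =>
      [Nat.mul (Nat.mul x.cs y.cd) (Nat.mul (Nat.mul (pr x.w0 y.w0) (pr x.w1 y.w1))
        (Nat.mul (pr y.u0 x.u0) (pr y.u1 x.u1))),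
       Nat.mul (Nat.mul x.cs y.cd) (Nat.mul (Nat.mul (pr x.w0 y.w1) (pr x.w1 y.w0))
        (Nat.mul (pr y.u0 x.u1) (pr y.u1 x.u0)))]

/-- negative codes -/
def cn : Kind → O → O → List ℕ
  | .D4, _, _ => []
  | .D3, _, _ => []
  | .A3, x, y => [Nat.mul (Nat.mul x.cs y.cd) (Nat.mul (pr y.u0 x.u1) (pr y.u1 x.u0))]
  | .D2, x, y =>
      [Nat.mul (Nat.mul x.cs y.cd) (Nat.mul (Nat.mul (pr x.w0 y.w1) (pr x.w1 y.w0))
        (Nat.mul (pr y.u0 x.u0) (pr y.u1 x.u1))),
       Nat.mul (Nat.mul x.cs y.cd) (Nat.mul (Nat.mul (pr x.w0 y.w0) (pr x.w1 y.w1))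
        (Nat.mul (pr y.u0 x.u1) (pr y.u1 x.u0)))]

/-- positive part of the form of two signed vectors -/
noncomputable def Pm {R : Type} (o : Ops R) (k : Kind) (X Y : List O × List O) : R :=
  o.ad (o.ad (S2 o (cp k) X.1 Y.1) (S2 o (cp k) X.2 Y.2))
    (o.ad (S2 o (cn k) X.1 Y.2) (S2 o (cn k) X.2 Y.1))

/-- negative part of the form of two signed vectors -/
noncomputable def Nm {R : Type} (o : Ops R) (k : Kind) (X Y : List O × List O) : R :=
  o.ad (o.ad (S2 o (cp k) X.1 Y.2) (S2 o (cp k) X.2 Y.1))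
    (o.ad (S2 o (cn k) X.1 Y.1) (S2 o (cn k) X.2 Y.2))

/-- a vector of the block together with its column in the factor matrix -/
structure En where
  X : List O × List O
  v : List ℤ

/-- positive part of a row -/
noncomputable def rowP {R : Type} (o : Ops R) (k : Kind) (x : En) : List En → List (ℕ × ℕ) → R
  | y :: ys, g :: gs =>
      o.ad (o.ad (o.sm g.1 (Pm o k x.X y.X)) (o.sm g.2 (Nm o k x.X y.X))) (rowP o k x ys gs)
  | _, _ => o.z

/-- negative part of a row -/
noncomputable def rowN {R : Type} (o : Ops R) (k : Kind) (x : En) : List En → List (ℕ × ℕ) → R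
  | y :: ys, g :: gs =>
      o.ad (o.ad (o.sm g.1 (Nm o k x.X y.X)) (o.sm g.2 (Pm o k x.X y.X))) (rowN o k x ys gs)
  | _, _ => o.z

/-- positive part of a block -/
noncomputable def bP {R : Type} (o : Ops R) (k : Kind) : List En → List (List (ℕ × ℕ)) → R
  | x :: xs, g :: gs => o.ad (rowP o k x (x :: xs) g) (bP o k xs gs)
  | _, _ => o.z

/-- negative part of a block -/
noncomputable def bN {R : Type} (o : Ops R) (k : Kind) : List En → List (List (ℕ × ℕ)) → R
  | x :: xs, g :: gs => o.ad (rowN o k x (x :: xs) g) (bN o k xs gs)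
  | _, _ => o.z

/-- `∑ d v w` -/
def dot3 : List ℕ → List ℤ → List ℤ → ℤ
  | d :: ds, v :: vs, w :: ws => d * v * w + dot3 ds vs ws
  | _, _, _ => 0

/-- the weights of a row agree with the factorisation -/
def chkRow (D : ℤ) (d : List ℕ) (x : En) (f : ℤ) : List En → List (ℕ × ℕ) → Bool
  | y :: ys, g :: gs =>
      decide (D * ((g.1 : ℤ) - (g.2 : ℤ)) = f * dot3 d x.v y.v) && chkRow D d x 2 ys gs
  | [], [] => true
  | _, _ => false

/-- the weights of a block agree with the factorisation -/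
def chk (D : ℤ) (d : List ℕ) : List En → List (List (ℕ × ℕ)) → Bool
  | x :: xs, g :: gs => chkRow D d x 1 (x :: xs) g && chk D d xs gs
  | [], [] => true
  | _, _ => false

/-! ### naturality -/

/-- a map compatible with the operations -/
structure Hom {R R' : Type} (o : Ops R) (o' : Ops R') (f : R → R') : Prop where
  z : f o.z = o'.z
  ad : ∀ a b, f (o.ad a b) = o'.ad (f a) (f b)
  sm : ∀ n a, f (o.sm n a) = o'.sm n (f a)
  ps : ∀ n c p q, f (o.ps n c p q) = o'.ps n c p q

section nat
variable {R R' : Type} {o : Ops R} {o' : Ops R'} {f : R → R'}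

lemma Hom.S0 (h : Hom o o' f) (n p q : ℕ) (l : List ℕ) : f (S0 o n p q l) = S0 o' n p q l := by
  induction l with
  | nil => exact h.z
  | cons c l ih =>
    change f (o.ad _ _) = o'.ad _ _
    rw [h.ad, h.ps]
    exact congrArg _ ih

lemma Hom.S1 (h : Hom o o' f) (cds : O → O → List ℕ) (x : O) (ys : List O) :
    f (S1 o cds x ys) = S1 o' cds x ys := by
  induction ys with
  | nil => exact h.z
  | cons y ys ih =>
    change f (o.ad _ _) = o'.ad _ _
    rw [h.ad, h.S0]
    exact congrArg _ ih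

lemma Hom.S2 (h : Hom o o' f) (cds : O → O → List ℕ) (xs ys : List O) :
    f (S2 o cds xs ys) = S2 o' cds xs ys := by
  induction xs with
  | nil => exact h.z
  | cons x xs ih =>
    change f (o.ad _ _) = o'.ad _ _
    rw [h.ad, h.S1]
    exact congrArg _ ih

lemma Hom.Pm (h : Hom o o' f) (k : Kind) (X Y : List O × List O) :
    f (Pm o k X Y) = Pm o' k X Y := by
  simp only [POT.Pm, h.ad, h.S2]

lemma Hom.Nm (h : Hom o o' f) (k : Kind) (X Y : List O × List O) :
    f (Nm o k X Y) = Nm o' k X Y := by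
  simp only [POT.Nm, h.ad, h.S2]

lemma Hom.rowP (h : Hom o o' f) (k : Kind) (x : En) (ys : List En) (gs : List (ℕ × ℕ)) :
    f (rowP o k x ys gs) = rowP o' k x ys gs := by
  induction ys generalizing gs with
  | nil => simp [POT.rowP, h.z]
  | cons y ys ih =>
    cases gs with
    | nil => simp [POT.rowP, h.z]
    | cons g gs => simp only [POT.rowP, h.ad, h.sm, h.Pm, h.Nm, ih]

lemma Hom.rowN (h : Hom o o' f) (k : Kind) (x : En) (ys : List En) (gs : List (ℕ × ℕ)) :
    f (rowN o k x ys gs) = rowN o' k x ys gs := by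
  induction ys generalizing gs with
  | nil => simp [POT.rowN, h.z]
  | cons y ys ih =>
    cases gs with
    | nil => simp [POT.rowN, h.z]
    | cons g gs => simp only [POT.rowN, h.ad, h.sm, h.Pm, h.Nm, ih]

lemma Hom.bP (h : Hom o o' f) (k : Kind) (xs : List En) (gs : List (List (ℕ × ℕ))) :
    f (bP o k xs gs) = bP o' k xs gs := by
  induction xs generalizing gs with
  | nil => simp [POT.bP, h.z]
  | cons y ys ih =>
    cases gs with
    | nil => simp [POT.bP, h.z]
    | cons g gs => simp only [POT.bP, h.ad, h.rowP, ih]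

lemma Hom.bN (h : Hom o o' f) (k : Kind) (xs : List En) (gs : List (List (ℕ × ℕ))) :
    f (bN o k xs gs) = bN o' k xs gs := by
  induction xs generalizing gs with
  | nil => simp [POT.bN, h.z]
  | cons y ys ih =>
    cases gs with
    | nil => simp [POT.bN, h.z]
    | cons g gs => simp only [POT.bN, h.ad, h.rowN, ih]

end nat

end Pool.Agent.W502.POT
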