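import Mathlib

/-!
# Permanent on top for 4x4 matrices (problem MP_61cf81, frozen statement S01687): the three forms

For a Hermitian positive semidefinite 4x4 matrix `A` and `σ` in `S_4` put `mon A σ = ∏ i, A i (σ i)`.
The statement reduces to nonnegativity of three Hermitian forms (`f31`, `f211`, `f22`).
-/

set_option autoImplicit false

namespace Pool.Agent.W502.POT

open Matrix
open scoped ComplexOrder

/-- `∏ i, A i (σ i)` -/
noncomputable def mon (A : Matrix (Fin 4) (Fin 4) ℂ) (σ : Equiv.Perm (Fin 4)) : ℂ := ∏ i, A i (σ i)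

/-- the form `c* (per(A) - [∑_{σ i = j} mon A σ]) c` on `ℂ^4` -/
noncomputable def f31 (A : Matrix (Fin 4) (Fin 4) ℂ) (c : Fin 4 → ℂ) : ℂ :=
  ∑ σ : Equiv.Perm (Fin 4), mon A σ * ∑ i, star (c i) * (c i - c (σ i))

/-- the same form twisted by the sign -/
noncomputable def f211 (A : Matrix (Fin 4) (Fin 4) ℂ) (c : Fin 4 → ℂ) : ℂ :=
  ∑ σ : Equiv.Perm (Fin 4), mon A σ *
    ∑ i, star (c i) * (c i - (((Equiv.Perm.sign σ : ℤˣ) : ℤ) : ℂ) * c (σ i))

/-- the perfect matching (`0` = 01|23, `1` = 02|13, `2` = 03|12) containing the edge `ab` -/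
def mt (a b : Fin 4) : Fin 3 :=
  if (a = 0 ∧ b = 1) ∨ (a = 1 ∧ b = 0) ∨ (a = 2 ∧ b = 3) ∨ (a = 3 ∧ b = 2) then 0
  else if (a = 0 ∧ b = 2) ∨ (a = 2 ∧ b = 0) ∨ (a = 1 ∧ b = 3) ∨ (a = 3 ∧ b = 1) then 1
  else 2

/-- action of `S_4` on the three perfect matchings -/
def mact (σ : Equiv.Perm (Fin 4)) (m : Fin 3) : Fin 3 := mt (σ 0) (σ m.succ)

/-- the form on the three matchings -/
noncomputable def f22 (A : Matrix (Fin 4) (Fin 4) ℂ) (c : Fin 3 → ℂ) : ℂ :=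
  ∑ σ : Equiv.Perm (Fin 4), mon A σ * ∑ m, star (c m) * (c m - c (mact σ m))

/-- first goal -/
def P31 : Prop := ∀ A : Matrix (Fin 4) (Fin 4) ℂ, A.PosSemidef → ∀ c : Fin 4 → ℂ, 0 ≤ (f31 A c).re

/-- second goal -/
def P211 : Prop := ∀ A : Matrix (Fin 4) (Fin 4) ℂ, A.PosSemidef → ∀ c : Fin 4 → ℂ, 0 ≤ (f211 A c).re

/-- third goal -/
def P22 : Prop := ∀ A : Matrix (Fin 4) (Fin 4) ℂ, A.PosSemidef → ∀ c : Fin 3 → ℂ, 0 ≤ (f22 A c).re


/-- the statement of S01687 -/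
def Target : Prop :=
    ∀ A : Matrix (Fin 4) (Fin 4) ℂ, A.PosSemidef →
      ((Matrix.of (fun (σ : Equiv.Perm (Fin 4)) (τ : Equiv.Perm (Fin 4)) =>
            ∏ t : Fin 4, A (σ t) (τ t))).mulVec (fun _ : Equiv.Perm (Fin 4) => (1 : ℂ))
          = (Matrix.permanent A) • (fun _ : Equiv.Perm (Fin 4) => (1 : ℂ))) ∧
      ∀ (μ : ℂ) (x : Equiv.Perm (Fin 4) → ℂ), x ≠ 0 →
        (Matrix.of (fun (σ : Equiv.Perm (Fin 4)) (τ : Equiv.Perm (Fin 4)) =>
            ∏ t : Fin 4, A (σ t) (τ t))).mulVec x = μ • x →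
          μ.re ≤ (Matrix.permanent A).re

/-- the class function identity behind the reduction -/
theorem class_identity (ρ : Equiv.Perm (Fin 4)) :
    24 * (if ρ = 1 then 1 else 0) + 4 + 2 * ((Equiv.Perm.sign ρ : ℤˣ) : ℤ) =
      3 * ((Finset.univ.filter (fun i => ρ i = i)).card : ℤ) * (1 + ((Equiv.Perm.sign ρ : ℤˣ) : ℤ)) +
      2 * ((Finset.univ.filter (fun m => mact ρ m = m)).card : ℤ) := by
  revert ρ; decide

end Pool.Agent.W502.POT
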