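import Pool.Agent.W502.POT.Tab
import Pool.Agent.W513.POT.Fin
import Pool.Agent.W346.POT.Inj

/-!
# Permanent on top, 4x4: a checked certificate proves the weighted averaged form nonnegative
-/

set_option autoImplicit false

namespace Pool.Agent.W502.POT

open Finset
open scoped ComplexOrder
open Pool.Agent.W513.POT (qq FF)

/-- a block with its factorisation `D * F = ∑ ds v v^T` -/
structure Bk where
  k : Kind
  D : ℕ
  ds : List ℕ
  xs : List En
  gs : List (List (ℕ × ℕ))

/-- kernel operations: base `2^80` digits indexed by classes -/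
def oN (t : Tb) (d : ℕ) : Ops ℕ :=
  ⟨0, Nat.add, Nat.mul, fun n e p q => Nat.shiftLeft n (Nat.mul 80 (cls t.T2 d e p q))⟩

/-- kernel operations for the bound -/
def o1 : Ops ℕ := ⟨0, Nat.add, Nat.mul, fun n _ _ _ => n⟩

/-- formal operations -/
noncomputable def oF (t : Tb) (d : ℕ) : Ops (ℕ →₀ ℕ) :=
  ⟨0, fun a b => a + b, fun n a => n • a, fun n e p q => Finsupp.single (cls t.T2 d e p q) n⟩

lemma hom_lin {M : Type} [AddCommMonoid M] (t : Tb) (d : ℕ) (o' : Ops M) (φ : ℕ → M)
    (hz : o'.z = 0) (had : ∀ a b, o'.ad a b = a + b) (hsm : ∀ n a, o'.sm n a = n • a)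
    (hps : ∀ n e p q, o'.ps n e p q = n • φ (cls t.T2 d e p q)) :
    Hom (oF t d) o' (Finsupp.linearCombination ℕ φ) where
  z := by rw [hz]; exact map_zero _
  ad a b := by rw [had]; exact map_add _ _ _
  sm n a := by rw [hsm]; exact map_smul _ _ _
  ps n e p q := by rw [hps]; exact Finsupp.linearCombination_single _ _ _

lemma hom_oN (t : Tb) (d : ℕ) :
    Hom (oF t d) (oN t d) (Finsupp.linearCombination ℕ fun k => (2 ^ 80) ^ k) := by
  refine hom_lin t d _ _ rfl (fun _ _ => rfl) (fun _ _ => rfl) fun n e p q => ?_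
  change n <<< (80 * cls t.T2 d e p q) = _
  rw [Nat.shiftLeft_eq_mul_pow, smul_eq_mul, pow_mul]

lemma hom_o1 (t : Tb) (d : ℕ) :
    Hom (oF t d) o1 (Finsupp.linearCombination ℕ fun _ => (1 : ℕ)) := by
  refine hom_lin t d _ _ rfl (fun _ _ => rfl) (fun _ _ => rfl) fun n e p q => ?_
  change n = _
  simp

lemma hom_oR {d : ℕ} [NeZero d] (κ : Equiv.Perm (Fin 4) → Fin d → Fin d)
    (A : Matrix (Fin 4) (Fin 4) ℂ) (c : Fin d → ℂ)
    (t : Tb) (hκ : ∀ g s i, κ (g * s) i = κ g (κ s i)) (hA : A.IsHermitian)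
    (ht : chkT t d) (hk : ∀ g < 24, ∀ p, κ (pg g) (zt d p) = zt d (imk t d g p)) :
    Hom (oF t d) (oR κ A c) (Finsupp.linearCombination ℕ (VV κ A c t)) := by
  refine hom_lin t d _ _ rfl (fun _ _ => rfl) (fun n a => ?_) fun n e p q => ?_
  · change (n : ℝ) * a = _
    simp
  · change (n : ℝ) * TT κ A c e p q = _
    rw [VV_cls κ A c t hκ hA ht hk, nsmul_eq_mul]

lemma le_total (s : ℕ →₀ ℕ) (k : ℕ) :
    s k ≤ Finsupp.linearCombination ℕ (fun _ => (1 : ℕ)) s := by
  rw [Finsupp.linearCombination_apply]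
  simp only [smul_eq_mul, mul_one]
  by_cases hk : k ∈ s.support
  · exact Finset.single_le_sum (f := fun k => s k) (fun _ _ => Nat.zero_le _) hk
  · rw [Finsupp.notMem_support_iff.mp hk]
    exact Nat.zero_le _

/-- sum of positive parts -/
noncomputable def bsP {R : Type} (o : Ops R) : List Bk → R
  | [] => o.z
  | b :: bs => o.ad (bP o b.k b.xs b.gs) (bsP o bs)

/-- sum of negative parts -/
noncomputable def bsN {R : Type} (o : Ops R) : List Bk → R
  | [] => o.z
  | b :: bs => o.ad (bN o b.k b.xs b.gs) (bsN o bs)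

/-- sum over a list of triples -/
noncomputable def Lt {R : Type} (o : Ops R) : List (ℕ × ℕ × ℕ) → R
  | [] => o.z
  | x :: l => o.ad (o.ps 1 x.1 x.2.1 x.2.2) (Lt o l)

section nat
variable {R R' : Type} {o : Ops R} {o' : Ops R'} {f : R → R'}

lemma Hom.bsP (h : Hom o o' f) (bs : List Bk) : f (bsP o bs) = bsP o' bs := by
  induction bs with
  | nil => exact h.z
  | cons b bs ih => simp only [POT.bsP, h.ad, h.bP, ih]

lemma Hom.bsN (h : Hom o o' f) (bs : List Bk) : f (bsN o bs) = bsN o' bs := by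
  induction bs with
  | nil => exact h.z
  | cons b bs ih => simp only [POT.bsN, h.ad, h.bN, ih]

lemma Hom.Lt (h : Hom o o' f) (l : List (ℕ × ℕ × ℕ)) : f (Lt o l) = Lt o' l := by
  induction l with
  | nil => exact h.z
  | cons b bs ih => simp only [POT.Lt, h.ad, h.ps, ih]

end nat

/-- left side of the identity -/
noncomputable def LHS {R : Type} (o : Ops R) (D : ℕ) (bs : List Bk) (tn : List (ℕ × ℕ × ℕ)) : R :=
  o.ad (bsP o bs) (o.sm D (Lt o tn))

/-- right side of the identity -/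
noncomputable def RHS {R : Type} (o : Ops R) (D : ℕ) (bs : List Bk) (tp : List (ℕ × ℕ × ℕ)) : R :=
  o.ad (bsN o bs) (o.sm D (Lt o tp))

/-- consistency of a block -/
def okB (b : Bk) : Prop := 0 < b.D ∧ goodE b.xs ∧ chk (b.D : ℤ) b.ds b.xs b.gs = true

theorem cert {d : ℕ} [NeZero d] (κ : Equiv.Perm (Fin 4) → Fin d → Fin d)
    (A : Matrix (Fin 4) (Fin 4) ℂ) (hA : A.PosSemidef) (c : Fin d → ℂ)
    (t : Tb) (hκ : ∀ g s i, κ (g * s) i = κ g (κ s i))
    (ht : chkT t d) (hk : ∀ g < 24, ∀ p, κ (pg g) (zt d p) = zt d (imk t d g p))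
    (D : ℕ) (hD : 0 < D) (bs : List Bk) (tp tn : List (ℕ × ℕ × ℕ)) (hok : ∀ b ∈ bs, okB b)
    (hZ : LHS (oN t d) D bs tn = RHS (oN t d) D bs tp)
    (h1 : LHS o1 D bs tn < 2 ^ 80) (h2 : RHS o1 D bs tp < 2 ^ 80) :
    Lt (oR κ A c) tn ≤ Lt (oR κ A c) tp := by
  have hN := hom_oN t d
  have hO := hom_o1 t d
  have hR := hom_oR κ A c t hκ hA.isHermitian ht hk
  have eL : ∀ {M : Type} (o' : Ops M) (f : (ℕ →₀ ℕ) → M), Hom (oF t d) o' f →
      f (LHS (oF t d) D bs tn) = LHS o' D bs tn := by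
    intro M o' f h
    simp only [LHS, h.ad, h.bsP, h.sm, h.Lt]
  have eR : ∀ {M : Type} (o' : Ops M) (f : (ℕ →₀ ℕ) → M), Hom (oF t d) o' f →
      f (RHS (oF t d) D bs tp) = RHS o' D bs tp := by
    intro M o' f h
    simp only [RHS, h.ad, h.bsN, h.sm, h.Lt]
  have key : LHS (oF t d) D bs tn = RHS (oF t d) D bs tp := by
    refine Pool.Agent.W346.POT.inj (2 ^ 80) _ _ (fun k => ?_) (fun k => ?_) ?_
    · refine lt_of_le_of_lt (le_total _ k) ?_
      rw [eL _ _ hO]
      exact h1
    · refine lt_of_le_of_lt (le_total _ k) ?_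
      rw [eR _ _ hO]
      exact h2
    · have a1 := eL _ _ hN
      have a2 := eR _ _ hN
      rw [Finsupp.linearCombination_apply] at a1 a2
      simp only [smul_eq_mul] at a1 a2
      rw [a1, a2, hZ]
  have b1 := eL _ _ hR
  have b2 := eR _ _ hR
  rw [key, b2] at b1
  have c1 : bsN (oR κ A c) bs ≤ bsP (oR κ A c) bs := by
    clear b1 b2 key eL eR hZ h1 h2
    induction bs with
    | nil => exact le_refl _
    | cons b bs ih =>
      have hb := hok b List.mem_cons_self
      have h3 := block_nonneg κ A c hA b.k (b.D : ℤ) (by exact_mod_cast hb.1) b.ds b.xs b.gs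
        hb.2.1 hb.2.2
      have h4 := ih fun b' hb' => hok b' (List.mem_cons_of_mem _ hb')
      exact add_le_add h3 h4
  have d1 : bsN (oR κ A c) bs + (D : ℝ) * Lt (oR κ A c) tp =
      bsP (oR κ A c) bs + (D : ℝ) * Lt (oR κ A c) tn := b1
  have hD' : (0 : ℝ) < D := by exact_mod_cast hD
  have e1 : (D : ℝ) * Lt (oR κ A c) tn ≤ (D : ℝ) * Lt (oR κ A c) tp := by linarith
  exact le_of_mul_le_mul_left e1 hD'

/-! ### the target -/

/-- code of `mon` -/
def cS (σ : Equiv.Perm (Fin 4)) : ℕ :=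
  code [(0, (σ 0).val), (1, (σ 1).val), (2, (σ 2).val), (3, (σ 3).val)]

/-- monomials of the weight -/
def QC : List (List (ℕ × ℕ)) :=
  [[(0, 0), (1, 1), (2, 2), (3, 3)], [(0, 1), (1, 0), (2, 2), (3, 3)],
   [(0, 0), (1, 1), (2, 3), (3, 2)], [(0, 1), (1, 0), (2, 3), (3, 2)]]

/-- diagonal terms -/
def tD (d : ℕ) : List (ℕ × ℕ × ℕ) :=
  QC.flatMap fun q => PL.flatMap fun σ => (List.range d).map fun p =>
    (Nat.mul (code q) (cS σ), p, p)

/-- off-diagonal terms of given sign -/
def tX {d : ℕ} [NeZero d] (κ : Equiv.Perm (Fin 4) → Fin d → Fin d)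
    (ng : Equiv.Perm (Fin 4) → Bool) (b : Bool) : List (ℕ × ℕ × ℕ) :=
  QC.flatMap fun q => PL.flatMap fun σ => if ng σ = b then (List.range d).map fun p =>
    (Nat.mul (code q) (cS σ), p, (κ σ (zt d p)).val) else []

lemma sum_flatMap' {α β : Type} (l : List α) (f : α → List β) (h : β → ℝ) :
    ((l.flatMap f).map h).sum = (l.map fun a => ((f a).map h).sum).sum := by
  induction l with
  | nil => simp
  | cons a l ih => simp [ih]

lemma sum_range_list (d : ℕ) (f : ℕ → ℝ) :
    ((List.range d).map f).sum = ∑ i : Fin d, f i.val := by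
  rw [Fin.sum_univ_eq_sum_range]
  rfl

section
variable {d : ℕ} [NeZero d] (κ : Equiv.Perm (Fin 4) → Fin d → Fin d)
  (A : Matrix (Fin 4) (Fin 4) ℂ) (c : Fin d → ℂ)

lemma Lt_oR (l : List (ℕ × ℕ × ℕ)) :
    Lt (oR κ A c) l = (l.map fun x => TT κ A c x.1 x.2.1 x.2.2).sum := by
  induction l with
  | nil => rfl
  | cons x l ih =>
    rw [List.map_cons, List.sum_cons, ← ih]
    change ((1 : ℕ) : ℝ) * TT κ A c x.1 x.2.1 x.2.2 + _ = _
    rw [Nat.cast_one, one_mul]

lemma zt_val (i : Fin d) : zt d i.val = i := by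
  apply Fin.ext
  exact Nat.mod_eq_of_lt i.isLt

lemma chi_cS (E : Fin 4 → Fin 4 → ℂ) (σ : Equiv.Perm (Fin 4)) :
    chi E (cS σ) = ∏ i, E i (σ i) := by
  have h : ∀ j : Fin 4, ix j.val = j := fun j => Fin.ext (Nat.mod_eq_of_lt j.isLt)
  rw [cS, chi_code]
  simp only [List.map_cons, List.map_nil, List.prod_cons, List.prod_nil, h, Fin.prod_univ_four,
    mul_one]
  have h0 : ix 0 = 0 := rfl
  have h1 : ix 1 = 1 := rfl
  have h2 : ix 2 = 2 := rfl
  have h3 : ix 3 = 3 := rfl
  rw [h0, h1, h2, h3]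
  ring

theorem target (ng : Equiv.Perm (Fin 4) → Bool) :
    Lt (oR κ A c) (tD d ++ tX κ ng true) - Lt (oR κ A c) (tX κ ng false) =
      ∑ g : Equiv.Perm (Fin 4), (qq (A.submatrix g g) *
        FF κ (fun σ => if ng σ then -1 else 1) (A.submatrix g g) (fun i => c (κ g i))).re := by
  have hL : ∀ σ : Equiv.Perm (Fin 4), ∀ q : List (ℕ × ℕ),
      (∑ i : Fin d, TT κ A c (Nat.mul (code q) (cS σ)) i.val i.val) -
        (if ng σ then -1 else 1) *
          (∑ i : Fin d, TT κ A c (Nat.mul (code q) (cS σ)) i.val (κ σ i).val) =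
      ∑ g : Equiv.Perm (Fin 4), (chi (fun i j => A (g i) (g j)) (code q) *
        (mon (A.submatrix g g) σ * ∑ i, star (c (κ g i)) *
          (c (κ g i) - (if ng σ then -1 else 1) * c (κ g (κ σ i))))).re := by
    intro σ q
    unfold TT
    rw [Finset.sum_comm, Finset.sum_comm (s := Finset.univ (α := Fin d))
      (f := fun i g => (chi (fun i j => A (g i) (g j)) (Nat.mul (code q) (cS σ)) *
        star (c (κ g (zt d i.val))) * c (κ g (zt d (κ σ i).val))).re), Finset.mul_sum,
      ← Finset.sum_sub_distrib]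
    refine Finset.sum_congr rfl fun g _ => ?_
    rw [← Complex.re_sum, ← Complex.re_sum]
    have h1 : ∀ w : ℂ, (if ng σ then (-1 : ℝ) else 1) * w.re =
        ((if ng σ then (-1 : ℂ) else 1) * w).re := by
      intro w
      split_ifs <;> simp
    rw [h1, ← Complex.sub_re]
    congr 1
    have h2 : chi (fun i j => A (g i) (g j)) (Nat.mul (code q) (cS σ)) =
        chi (fun i j => A (g i) (g j)) (code q) * mon (A.submatrix g g) σ := by
      have e1 : mon (A.submatrix g g) σ = chi (fun i j => A (g i) (g j)) (cS σ) := by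
        rw [chi_cS]; rfl
      rw [e1]
      exact chi_mul _ _ _ (code_ne _) (code_ne _)
    rw [h2]
    simp only [zt_val, Finset.mul_sum]
    rw [← Finset.sum_sub_distrib]
    refine Finset.sum_congr rfl fun i _ => ?_
    ring
  have hP : ∀ b : Bool, Lt (oR κ A c) (tX κ ng b) = (QC.map fun q =>
      ∑ σ, if ng σ = b then
        ∑ i : Fin d, TT κ A c (Nat.mul (code q) (cS σ)) i.val (κ σ i).val else 0).sum := by
    intro b
    rw [Lt_oR, tX, sum_flatMap']
    congr 1
    refine List.map_congr_left fun q _ => ?_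
    rw [sum_flatMap', sum_PL]
    congr 1
    refine List.map_congr_left fun σ _ => ?_
    split_ifs
    · rw [List.map_map, sum_range_list]
      refine Finset.sum_congr rfl fun i _ => ?_
      simp only [Function.comp, zt_val]
    · simp
  have hD : Lt (oR κ A c) (tD d) = (QC.map fun q =>
      ∑ σ, ∑ i : Fin d, TT κ A c (Nat.mul (code q) (cS σ)) i.val i.val).sum := by
    rw [Lt_oR, tD, sum_flatMap']
    congr 1
    refine List.map_congr_left fun q _ => ?_
    rw [sum_flatMap', sum_PL]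
    congr 1
    refine List.map_congr_left fun σ _ => ?_
    rw [List.map_map, sum_range_list]
    rfl
  have hA : ∀ l1 l2 : List (ℕ × ℕ × ℕ), Lt (oR κ A c) (l1 ++ l2) =
      Lt (oR κ A c) l1 + Lt (oR κ A c) l2 := by
    intro l1 l2
    simp [Lt_oR]
  have hQ : ∀ g : Equiv.Perm (Fin 4), qq (A.submatrix g g) =
      (QC.map fun q => chi (fun i j => A (g i) (g j)) (code q)).sum := by
    intro g
    simp only [QC, List.map_cons, List.map_nil, List.sum_cons, List.sum_nil, chi_code,
      List.prod_cons, List.prod_nil]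
    have h0 : ix 0 = 0 := rfl
    have h1 : ix 1 = 1 := rfl
    have h2 : ix 2 = 2 := rfl
    have h3 : ix 3 = 3 := rfl
    rw [h0, h1, h2, h3, qq]
    simp only [Matrix.submatrix_apply]
    ring
  have hT : ∀ q ∈ QC, (∑ σ, ∑ i : Fin d, TT κ A c (Nat.mul (code q) (cS σ)) i.val i.val) +
      (∑ σ, if ng σ = true then
        ∑ i : Fin d, TT κ A c (Nat.mul (code q) (cS σ)) i.val (κ σ i).val else 0) -
      (∑ σ, if ng σ = false then
        ∑ i : Fin d, TT κ A c (Nat.mul (code q) (cS σ)) i.val (κ σ i).val else 0) =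
      ∑ g : Equiv.Perm (Fin 4), (chi (fun i j => A (g i) (g j)) (code q) *
        FF κ (fun σ => if ng σ then -1 else 1) (A.submatrix g g) (fun i => c (κ g i))).re := by
    intro q _
    rw [← Finset.sum_add_distrib, ← Finset.sum_sub_distrib]
    have e : ∀ σ : Equiv.Perm (Fin 4),
        (∑ i : Fin d, TT κ A c (Nat.mul (code q) (cS σ)) i.val i.val) +
        (if ng σ = true then
          ∑ i : Fin d, TT κ A c (Nat.mul (code q) (cS σ)) i.val (κ σ i).val else 0) -
        (if ng σ = false then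
          ∑ i : Fin d, TT κ A c (Nat.mul (code q) (cS σ)) i.val (κ σ i).val else 0) =
        (∑ i : Fin d, TT κ A c (Nat.mul (code q) (cS σ)) i.val i.val) -
        (if ng σ then -1 else 1) *
          (∑ i : Fin d, TT κ A c (Nat.mul (code q) (cS σ)) i.val (κ σ i).val) := by
      intro σ
      cases ng σ <;> simp
    rw [Finset.sum_congr rfl fun σ _ => e σ, Finset.sum_congr rfl fun σ _ => hL σ q,
      Finset.sum_comm]
    refine Finset.sum_congr rfl fun g _ => ?_
    rw [← Complex.re_sum, FF, Finset.mul_sum]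
  rw [hA, hP, hP, hD]
  have hS : ∀ (l : List (List (ℕ × ℕ))) (f1 f2 f3 : List (ℕ × ℕ) → ℝ),
      (l.map f1).sum + (l.map f2).sum - (l.map f3).sum =
        (l.map fun q => f1 q + f2 q - f3 q).sum := by
    intro l f1 f2 f3
    induction l with
    | nil => simp
    | cons a l ih => simp only [List.map_cons, List.sum_cons, ← ih]; ring
  rw [hS, List.map_congr_left hT]
  have hG : ∀ (l : List (List (ℕ × ℕ))) (F : Equiv.Perm (Fin 4) → ℂ)
      (G : List (ℕ × ℕ) → Equiv.Perm (Fin 4) → ℂ),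
      (l.map fun q => ∑ g, (G q g * F g).re).sum = ∑ g, ((l.map fun q => G q g).sum * F g).re := by
    intro l F G
    induction l with
    | nil => simp
    | cons a l ih =>
      simp only [List.map_cons, List.sum_cons, ih, ← Finset.sum_add_distrib, add_mul,
        Complex.add_re]
  rw [hG]
  refine Finset.sum_congr rfl fun g _ => ?_
  rw [hQ g]

end

end Pool.Agent.W502.POT
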