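import Pool.Agent.W502.POT.Core

/-!
# Permanent on top, 4x4: positivity of the blocks
-/

set_option autoImplicit false

namespace Pool.Agent.W502.POT

open Finset Matrix
open scoped ComplexOrder

open scoped MatrixOrder Matrix.Norms.L2Operator in
lemma exB (A : Matrix (Fin 4) (Fin 4) ℂ) (hA : A.PosSemidef) :
    ∃ B : Matrix (Fin 4) (Fin 4) ℂ, A = Bᴴ * B :=
  CStarAlgebra.nonneg_iff_eq_star_mul_self.mp hA.nonneg

/-- index mod `d` -/
def zt (d : ℕ) [NeZero d] (p : ℕ) : Fin d := ⟨p % d, Nat.mod_lt _ (NeZero.pos d)⟩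

section
variable {d : ℕ} [NeZero d] (κ : Equiv.Perm (Fin 4) → Fin d → Fin d)

/-- symmetrised real part of a monomial -/
noncomputable def TT (A : Matrix (Fin 4) (Fin 4) ℂ) (c : Fin d → ℂ) (n p q : ℕ) : ℝ :=
  ∑ g : Equiv.Perm (Fin 4),
    (chi (fun i j => A (g i) (g j)) n * star (c (κ g (zt d p))) * c (κ g (zt d q))).re

/-- the real operations -/
noncomputable def oR (A : Matrix (Fin 4) (Fin 4) ℂ) (c : Fin d → ℂ) : Ops ℝ where
  z := 0
  ad := fun a b => a + b
  sm := fun n a => n * a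
  ps := fun n e p q => n * TT κ A c e p q

lemma minor (b : Fin 4 → Fin 4 → ℂ) (i j i' j' : Fin 4) :
    2 * ((∑ k, star (b k i) * b k i') * (∑ k, star (b k j) * b k j')
      - (∑ k, star (b k i) * b k j') * (∑ k, star (b k j) * b k i')) =
    ∑ k, ∑ l, star (b k i * b l j - b l i * b k j) * (b k i' * b l j' - b l i' * b k j') := by
  simp only [Fin.sum_univ_four, star_sub, star_mul']
  ring

theorem gram (A : Matrix (Fin 4) (Fin 4) ℂ) (hA : A.PosSemidef) (c : Fin d → ℂ) (k : Kind) :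
    ∃ (J : Type) (_ : Fintype J) (r : ℝ) (v : J → O → ℂ), 0 < r ∧ ∀ x y, good x → good y →
      r * (((cp k x y).map fun n => TT κ A c n x.p y.p).sum
        - ((cn k x y).map fun n => TT κ A c n x.p y.p).sum) =
        ∑ j, (star (v j x) * v j y).re := by
  obtain ⟨B, hB⟩ : ∃ B : Matrix (Fin 4) (Fin 4) ℂ, A = Bᴴ * B := exB A hA
  have hAe : ∀ i j, A i j = ∑ k, star (B k i) * B k j := by
    intro i j
    rw [hB, Matrix.mul_apply]
    rfl
  have hH : ∀ i j, A j i = star (A i j) := fun i j => (hA.isHermitian.apply j i).symm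
  let E : Equiv.Perm (Fin 4) → Fin 4 → Fin 4 → ℂ := fun g i j => A (g i) (g j)
  have hE : ∀ g i j, E g i j = ∑ k, star (B k (g i)) * B k (g j) := fun g i j => hAe _ _
  have hcs : ∀ g (x : O), good x → chi (E g) x.cs = star (chi (E g) x.cd) := by
    intro g x hx
    rw [hx.1, hx.2]
    exact chi_sw _ (fun i j => hH _ _) _
  have hcs0 : ∀ x : O, good x → x.cs ≠ 0 := fun x hx => by rw [hx.1]; exact code_ne _
  have hcd0 : ∀ x : O, good x → x.cd ≠ 0 := fun x hx => by rw [hx.2]; exact code_ne _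
  cases k with
  | D4 =>
    refine ⟨Equiv.Perm (Fin 4), inferInstance, 1,
      fun g x => chi (E g) x.cd * c (κ g (zt d x.p)), one_pos, fun x y hx hy => ?_⟩
    have hc : chi = chi := rfl
    simp only [cp, cn, List.map_cons, List.map_nil, List.sum_cons, List.sum_nil, TT, add_zero,
      sub_zero, one_mul]
    refine Finset.sum_congr rfl fun g _ => ?_
    congr 1
    have h1 : chi (fun i j => A (g i) (g j)) (Nat.mul x.cs y.cd) =
        star (chi (E g) x.cd) * chi (E g) y.cd := by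
      rw [← hcs g x hx]
      exact chi_mul _ _ _ (hcs0 x hx) (hcd0 y hy)
    rw [h1, star_mul']
    ring
  | D3 =>
    refine ⟨Equiv.Perm (Fin 4) × (Fin 4 × Fin 4), inferInstance, 1,
      fun g x => chi (E g.1) x.cd * c (κ g.1 (zt d x.p)) * B g.2.1 (g.1 (ix x.w0)) *
        star (B g.2.2 (g.1 (ix x.u0))), one_pos, fun x y hx hy => ?_⟩
    simp only [cp, cn, List.map_cons, List.map_nil, List.sum_cons, List.sum_nil, TT, add_zero,
      sub_zero, one_mul, Fintype.sum_prod_type]
    refine Finset.sum_congr rfl fun g _ => ?_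
    simp only [← Complex.re_sum]
    congr 1
    have h1 : chi (fun i j => A (g i) (g j))
        (Nat.mul (Nat.mul x.cs y.cd) (Nat.mul (pr x.w0 y.w0) (pr y.u0 x.u0))) =
        star (chi (E g) x.cd) * chi (E g) y.cd *
          ((∑ k, star (B k (g (ix x.w0))) * B k (g (ix y.w0))) *
            (∑ k, star (B k (g (ix y.u0))) * B k (g (ix x.u0)))) := by
      rw [← hcs g x hx, ← hE, ← hE]
      change chi (E g) ((x.cs * y.cd) * (pr x.w0 y.w0 * pr y.u0 x.u0)) = _
      rw [chi_mul _ _ _ (Nat.mul_ne_zero (hcs0 x hx) (hcd0 y hy))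
        (Nat.mul_ne_zero (pr_ne _ _) (pr_ne _ _)), chi_mul _ _ _ (hcs0 x hx) (hcd0 y hy),
        chi_mul _ _ _ (pr_ne _ _) (pr_ne _ _), chi_pr, chi_pr]
    rw [h1]
    simp only [Fin.sum_univ_four, star_mul', star_star]
    ring
  | A3 =>
    refine ⟨Equiv.Perm (Fin 4) × (Fin 4 × Fin 4), inferInstance, 2,
      fun g x => chi (E g.1) x.cd * c (κ g.1 (zt d x.p)) *
        star (B g.2.1 (g.1 (ix x.u0)) * B g.2.2 (g.1 (ix x.u1)) -
          B g.2.2 (g.1 (ix x.u0)) * B g.2.1 (g.1 (ix x.u1))), two_pos, fun x y hx hy => ?_⟩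
    simp only [cp, cn, List.map_cons, List.map_nil, List.sum_cons, List.sum_nil, TT, add_zero,
      Fintype.sum_prod_type]
    rw [← Finset.sum_sub_distrib, Finset.mul_sum]
    refine Finset.sum_congr rfl fun g _ => ?_
    simp only [← Complex.re_sum]
    have hch : ∀ a b a' b' : ℕ, chi (fun i j => A (g i) (g j))
        (Nat.mul (Nat.mul x.cs y.cd) (Nat.mul (pr a b) (pr a' b'))) =
        star (chi (E g) x.cd) * chi (E g) y.cd *
          ((∑ k, star (B k (g (ix a))) * B k (g (ix b))) *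
            (∑ k, star (B k (g (ix a'))) * B k (g (ix b')))) := by
      intro a b a' b'
      rw [← hcs g x hx, ← hE, ← hE]
      change chi (E g) ((x.cs * y.cd) * (pr a b * pr a' b')) = _
      rw [chi_mul _ _ _ (Nat.mul_ne_zero (hcs0 x hx) (hcd0 y hy))
        (Nat.mul_ne_zero (pr_ne _ _) (pr_ne _ _)), chi_mul _ _ _ (hcs0 x hx) (hcd0 y hy),
        chi_mul _ _ _ (pr_ne _ _) (pr_ne _ _), chi_pr, chi_pr]
    rw [hch, hch, ← Complex.sub_re]
    have hr : ∀ w : ℂ, 2 * w.re = (2 * w).re := fun w => by simp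
    rw [hr]
    congr 1
    have hm := minor (fun k i => B k (g i)) (ix y.u0) (ix y.u1) (ix x.u0) (ix x.u1)
    have h2 : ∀ k l : Fin 4,
        star (chi (E g) x.cd * c (κ g (zt d x.p)) *
          star (B k (g (ix x.u0)) * B l (g (ix x.u1)) - B l (g (ix x.u0)) * B k (g (ix x.u1)))) *
        (chi (E g) y.cd * c (κ g (zt d y.p)) *
          star (B k (g (ix y.u0)) * B l (g (ix y.u1)) - B l (g (ix y.u0)) * B k (g (ix y.u1)))) =
        (star (chi (E g) x.cd) * chi (E g) y.cd * star (c (κ g (zt d x.p))) * c (κ g (zt d y.p))) *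
        (star (B k (g (ix y.u0)) * B l (g (ix y.u1)) - B l (g (ix y.u0)) * B k (g (ix y.u1))) *
          (B k (g (ix x.u0)) * B l (g (ix x.u1)) - B l (g (ix x.u0)) * B k (g (ix x.u1)))) := by
      intro k l
      rw [star_mul', star_mul', star_star]
      ring
    simp only [h2, ← Finset.mul_sum]
    rw [← hm]
    ring
  | D2 =>
    refine ⟨Equiv.Perm (Fin 4) × ((Fin 4 × Fin 4) × (Fin 4 × Fin 4)), inferInstance, 4,
      fun g x => chi (E g.1) x.cd * c (κ g.1 (zt d x.p)) *
        ((B g.2.1.1 (g.1 (ix x.w0)) * B g.2.1.2 (g.1 (ix x.w1)) -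
          B g.2.1.2 (g.1 (ix x.w0)) * B g.2.1.1 (g.1 (ix x.w1))) *
        star (B g.2.2.1 (g.1 (ix x.u0)) * B g.2.2.2 (g.1 (ix x.u1)) -
          B g.2.2.2 (g.1 (ix x.u0)) * B g.2.2.1 (g.1 (ix x.u1)))), by norm_num,
      fun x y hx hy => ?_⟩
    simp only [cp, cn, List.map_cons, List.map_nil, List.sum_cons, List.sum_nil, TT, add_zero,
      Fintype.sum_prod_type]
    rw [← Finset.sum_add_distrib, ← Finset.sum_add_distrib, ← Finset.sum_sub_distrib,
      Finset.mul_sum]
    refine Finset.sum_congr rfl fun g _ => ?_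
    simp only [← Complex.re_sum]
    have hch : ∀ a b a' b' e f e' f' : ℕ, chi (fun i j => A (g i) (g j))
        (Nat.mul (Nat.mul x.cs y.cd) (Nat.mul (Nat.mul (pr a b) (pr a' b'))
          (Nat.mul (pr e f) (pr e' f')))) =
        star (chi (E g) x.cd) * chi (E g) y.cd *
          (((∑ k, star (B k (g (ix a))) * B k (g (ix b))) *
            (∑ k, star (B k (g (ix a'))) * B k (g (ix b')))) *
          ((∑ k, star (B k (g (ix e))) * B k (g (ix f))) *
            (∑ k, star (B k (g (ix e'))) * B k (g (ix f'))))) := by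
      intro a b a' b' e f e' f'
      rw [← hcs g x hx, ← hE, ← hE, ← hE, ← hE]
      change chi (E g) ((x.cs * y.cd) * ((pr a b * pr a' b') * (pr e f * pr e' f'))) = _
      rw [chi_mul _ _ _ (Nat.mul_ne_zero (hcs0 x hx) (hcd0 y hy))
        (Nat.mul_ne_zero (Nat.mul_ne_zero (pr_ne _ _) (pr_ne _ _))
          (Nat.mul_ne_zero (pr_ne _ _) (pr_ne _ _))),
        chi_mul _ _ _ (hcs0 x hx) (hcd0 y hy),
        chi_mul _ _ _ (Nat.mul_ne_zero (pr_ne _ _) (pr_ne _ _))
          (Nat.mul_ne_zero (pr_ne _ _) (pr_ne _ _)),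
        chi_mul _ _ _ (pr_ne _ _) (pr_ne _ _), chi_mul _ _ _ (pr_ne _ _) (pr_ne _ _),
        chi_pr, chi_pr, chi_pr, chi_pr]
    rw [hch, hch, hch, hch, ← Complex.add_re, ← Complex.add_re, ← Complex.sub_re]
    have hr : ∀ w : ℂ, 4 * w.re = (4 * w).re := fun w => by simp
    rw [hr]
    congr 1
    have hm := minor (fun k i => B k (g i)) (ix y.u0) (ix y.u1) (ix x.u0) (ix x.u1)
    have hm' := minor (fun k i => B k (g i)) (ix x.w0) (ix x.w1) (ix y.w0) (ix y.w1)
    have h2 : ∀ k l m n : Fin 4,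
        star (chi (E g) x.cd * c (κ g (zt d x.p)) *
          ((B k (g (ix x.w0)) * B l (g (ix x.w1)) - B l (g (ix x.w0)) * B k (g (ix x.w1))) *
          star (B m (g (ix x.u0)) * B n (g (ix x.u1)) - B n (g (ix x.u0)) * B m (g (ix x.u1))))) *
        (chi (E g) y.cd * c (κ g (zt d y.p)) *
          ((B k (g (ix y.w0)) * B l (g (ix y.w1)) - B l (g (ix y.w0)) * B k (g (ix y.w1))) *
          star (B m (g (ix y.u0)) * B n (g (ix y.u1)) - B n (g (ix y.u0)) * B m (g (ix y.u1))))) =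
        (star (chi (E g) x.cd) * chi (E g) y.cd * star (c (κ g (zt d x.p))) * c (κ g (zt d y.p))) *
        ((star (B k (g (ix x.w0)) * B l (g (ix x.w1)) - B l (g (ix x.w0)) * B k (g (ix x.w1))) *
          (B k (g (ix y.w0)) * B l (g (ix y.w1)) - B l (g (ix y.w0)) * B k (g (ix y.w1)))) *
        (star (B m (g (ix y.u0)) * B n (g (ix y.u1)) - B n (g (ix y.u0)) * B m (g (ix y.u1))) *
          (B m (g (ix x.u0)) * B n (g (ix x.u1)) - B n (g (ix x.u0)) * B m (g (ix x.u1))))) := by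
      intro k l m n
      rw [star_mul', star_mul', star_mul', star_star]
      ring
    simp only [h2, ← Finset.mul_sum, ← Finset.sum_mul]
    rw [← hm, ← hm']
    ring

end

end Pool.Agent.W502.POT
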