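import Pool.Agent.W502.POT.Blk

/-!
# Permanent on top, 4x4: classes of monomials under relabelling and transposition
-/

set_option autoImplicit false

namespace Pool.Agent.W502.POT

open Finset
open scoped ComplexOrder

/-- the 24 permutations -/
def PL : List (Equiv.Perm (Fin 4)) := [
  ⟨![0,1,2,3], ![0,1,2,3], by decide, by decide⟩,
  ⟨![0,1,3,2], ![0,1,3,2], by decide, by decide⟩,
  ⟨![0,2,1,3], ![0,2,1,3], by decide, by decide⟩,
  ⟨![0,2,3,1], ![0,3,1,2], by decide, by decide⟩,
  ⟨![0,3,1,2], ![0,2,3,1], by decide, by decide⟩,
  ⟨![0,3,2,1], ![0,3,2,1], by decide, by decide⟩,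
  ⟨![1,0,2,3], ![1,0,2,3], by decide, by decide⟩,
  ⟨![1,0,3,2], ![1,0,3,2], by decide, by decide⟩,
  ⟨![1,2,0,3], ![2,0,1,3], by decide, by decide⟩,
  ⟨![1,2,3,0], ![3,0,1,2], by decide, by decide⟩,
  ⟨![1,3,0,2], ![2,0,3,1], by decide, by decide⟩,
  ⟨![1,3,2,0], ![3,0,2,1], by decide, by decide⟩,
  ⟨![2,0,1,3], ![1,2,0,3], by decide, by decide⟩,
  ⟨![2,0,3,1], ![1,3,0,2], by decide, by decide⟩,
  ⟨![2,1,0,3], ![2,1,0,3], by decide, by decide⟩,
  ⟨![2,1,3,0], ![3,1,0,2], by decide, by decide⟩,
  ⟨![2,3,0,1], ![2,3,0,1], by decide, by decide⟩,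
  ⟨![2,3,1,0], ![3,2,0,1], by decide, by decide⟩,
  ⟨![3,0,1,2], ![1,2,3,0], by decide, by decide⟩,
  ⟨![3,0,2,1], ![1,3,2,0], by decide, by decide⟩,
  ⟨![3,1,0,2], ![2,1,3,0], by decide, by decide⟩,
  ⟨![3,1,2,0], ![3,1,2,0], by decide, by decide⟩,
  ⟨![3,2,0,1], ![2,3,1,0], by decide, by decide⟩,
  ⟨![3,2,1,0], ![3,2,1,0], by decide, by decide⟩]

lemma PL_nodup : PL.Nodup := by decide +kernel

lemma PL_mem (σ : Equiv.Perm (Fin 4)) : σ ∈ PL := by
  revert σ; decide +kernel

lemma sum_PL {M : Type} [AddCommMonoid M] (F : Equiv.Perm (Fin 4) → M) :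
    ∑ σ, F σ = (PL.map F).sum := by
  have h : (Finset.univ : Finset (Equiv.Perm (Fin 4))) = PL.toFinset := by
    ext σ; simp [PL_mem]
  rw [h, List.sum_toFinset _ PL_nodup]

/-- packed images -/
def PI : ℕ := 0x1b4b278763931e4e36c672d22d8d39c9b1e16c9c78d8b4e4

/-- image of `i` under the permutation number `g` -/
def im (g i : ℕ) : ℕ := Nat.land (Nat.shiftRight PI (Nat.add (Nat.mul 8 g) (Nat.mul 2 (Nat.mod i 4)))) 3

/-- permutation number `g` -/
def pg (g : ℕ) : Equiv.Perm (Fin 4) := PL.getD g 1

lemma im_fin : ∀ g < 24, ∀ i : Fin 4, pg g i = ix (im g i.val) := by decide +kernel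

lemma im_ix (g : ℕ) (hg : g < 24) (i : ℕ) : pg g (ix i) = ix (im g i) := by
  rw [im_fin g hg]
  have : im g (ix i).val = im g i := by
    simp only [im, ix]
    rw [show Nat.mod (i % 4) 4 = Nat.mod i 4 from Nat.mod_mod i 4]
  rw [this]

/-- relabelled list -/
def rel (g : ℕ) (l : List (ℕ × ℕ)) : List (ℕ × ℕ) := l.map fun e => (im g e.1, im g e.2)

/-- modulus of the hash and its table -/
def T1 : ℕ := 0xc80000000000000000000000001a23e00000400000000004600000000000000d8000000000e200000f8000000000b5000000000240000000000000000000000000000a400005280000c000000000000000000000000000000000000000000000000000000000000000000000000000000000000411c800000000000000000000000000000000000000000000000000000000000000000004500000003840000000000000000000000000006f190000000000000000520000000000000000006d000000000000ba004c80000000c000000000000000051800001f0000000000000000470000000000000000000000000003a00000000037c0000000000000000000000000000000000000000000000000000000000000011e0000000000000000000057800f09d749c80000000000000001cc000000000cc001600000000000000ec0000000005f800000000000010300000000000000000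00000000000000000000000000005100000000000000004d800000000000000000000a06300000000000308000056c3400002200000f80000000000020800000000000dc0000001010000000000000016000000000000000192000000000ff000006600000018800000000000000009f0b5e3e4000000000000000000000055220006000254000000000000000000000000000000000001ce000024801160007800000000000f5000010a0000000000000000010e72800000000000000000000000000000000000000380000000000000000fc000000000000000000000000000a100000006500000000000000000000000000000001ba00000000000000020a0000001c0000000000000000000008380000000000000d80000000001c00000005b00000de00000000008000b8001500000000000000000000000000000000000008d220084800de005700000ef0000000000000000000000000002b000000000000000052104000000000720000000000000000000000164004a0b000000000000000000000000000000007f09001e40000000000000000a6007b00000000036c00000000000000000000000e80176000020c0000000000000258000000000ac7a000000000310000000000000000000000000003500000000021c000000000000000000000000000003000000000067000000066000000065800000000000000000000009c00000000000000003b0000000000000000000000000000000000000000000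000000000002d00000000000000000032000000000000000000000002b800000000000000000001cc00000000000000000000000000000000001000000000000000000000000000000000000000000000000000000000000d00000000b800000000000000000000ca000000000000000000000000000000001ced0000000000000000000c80000580000000000000000790000000001300000000000000000000150000000000b3190000000002f400005c800120000000003c0000098000010c000000000dc006380000000000000000000014000000000000000000000000000000000000000000226000000000000000000000000000000000000000000000000000000000000000007400000000000000b7000000000003c400000000000000000000d40380000960000000000000000000000000000000000b20000000d70000000007e0000000002f80000060000000000000000000000000000000000000000000000000000000000000000d40000000000000000009a000000000930000000a900000000000000aa000000000000026000490000000000023000005c000000040800009e000000000000004200000000000001898c000000000000000000000000000007a000000000000000000000e27d0000000000011400000000000000026800000000001000000000000000000000000001100d454000000144000000000000000000000000001d60034000000000000000000001580000000ea000033c0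0000000000003080000007d0011a00000009c0053000000000001aa690000168000000000008880074000034000000000000000000000000000000000044800fd00000da00000005e003da800000000000000000000077000000000000000000000000000003dc0000619e800002f800007600000000000000000000002180000200000000000006b0000000b000000000000000000000000000000000008b000000c00018011c000000000000000000000000000000000028e30000000000000000000000000fb000000a000042800004b80000002f0006c004480000000000000000034800000000000000000080000000008000000000000000174000000000000000000000000000001400000000000000000000000f00000000d60980000000680000000000120004a00048000000000cd0000000007f000011838000840084000b6f30029c00000d8000000000000000000002a00000022e000000000000008982000b800000000000000000000000000001dc00000000000078000000878004a3f0000000000000000008134c000000000000000000000000000a800000000000000000000000000000000002200000000000000000000008000000003aa0c00000016200000013e006c8000000168000084012284e000000000000000000006280000000000000000000000000021800000000156000000000000000000000000000000000000000000000000000000000019c0000000000000000000000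

/-- identifier of a code -/
def hid (e : ℕ) : ℕ := Nat.land (Nat.shiftRight T1 (Nat.mul 9 (Nat.mod e 1766))) 511

lemma hid_lt (e : ℕ) : hid e < 282 := by
  have h : ∀ r < 1766, Nat.land (Nat.shiftRight T1 (Nat.mul 9 r)) 511 < 282 := by decide +kernel
  exact h _ (Nat.mod_lt _ (by norm_num))

/-- key of an identifier -/
def key (T2 i : ℕ) : ℕ := Nat.land (Nat.shiftRight T2 (Nat.mul 176 i)) 281474976710655

/-- class of an identifier and an index pair -/
def cl (T2 i p q : ℕ) : ℕ :=
  Nat.land (Nat.shiftRight (Nat.shiftRight T2 (Nat.mul 176 i))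
    (Nat.add 48 (Nat.mul 8 (Nat.add (Nat.mul 4 p) q)))) 255

/-- class of a code and an index pair -/
def cls (T2 d e p q : ℕ) : ℕ :=
  cond (Nat.beq (key T2 (hid e)) e) (cl T2 (hid e) (Nat.mod p d) (Nat.mod q d))
    (Nat.add 256 (Nat.pair e (Nat.pair p q)))

/-- data of the classes: table, representatives, witnesses, packed action -/
structure Tb where
  T2 : ℕ
  RT : ℕ
  WT : ℕ
  PK : ℕ

/-- packed action on the indices -/
def imk (t : Tb) (d g p : ℕ) : ℕ :=
  Nat.land (Nat.shiftRight t.PK (Nat.add (Nat.mul 8 g) (Nat.mul 2 (Nat.mod p d)))) 3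

/-- representative of a class -/
def rp (t : Tb) (k : ℕ) : List (ℕ × ℕ) × ℕ × ℕ :=
  ([0, 1, 2, 3, 4, 5, 6, 7].map fun j =>
    (Nat.land (Nat.shiftRight t.RT (Nat.add (Nat.mul 40 k) (Nat.add (Nat.mul 4 j) 2))) 3,
      Nat.land (Nat.shiftRight t.RT (Nat.add (Nat.mul 40 k) (Nat.mul 4 j))) 3),
    Nat.land (Nat.shiftRight t.RT (Nat.add (Nat.mul 40 k) 32)) 3,
    Nat.land (Nat.shiftRight t.RT (Nat.add (Nat.mul 40 k) 34)) 3)

/-- check of one entry of the table -/
def chkW (t : Tb) (d i p q : ℕ) : Bool :=
  let w := Nat.land (Nat.shiftRight t.WT (Nat.mul 6 (Nat.add (Nat.mul 16 i) (Nat.add (Nat.mul 4 p) q)))) 63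
  let g := w % 32
  let r := rp t (cl t.T2 i p q)
  if w < 32 then
    decide (g < 24) && (decide (code (rel g r.1) = key t.T2 i) && (decide (imk t d g r.2.1 = p) &&
      decide (imk t d g r.2.2 = q)))
  else
    decide (g < 24) && (decide (code (sw (rel g r.1)) = key t.T2 i) &&
      (decide (imk t d g r.2.2 = p) && decide (imk t d g r.2.1 = q)))

/-- the whole table is checked -/
def chkT (t : Tb) (d : ℕ) : Prop := ∀ i < 282, ∀ p < d, ∀ q < d, chkW t d i p q = true

section
variable {d : ℕ} [NeZero d] (κ : Equiv.Perm (Fin 4) → Fin d → Fin d)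
  (A : Matrix (Fin 4) (Fin 4) ℂ) (c : Fin d → ℂ)

/-- value of a class -/
noncomputable def VV (t : Tb) (k : ℕ) : ℝ :=
  if k < 256 then TT κ A c (code (rp t k).1) (rp t k).2.1 (rp t k).2.2
  else TT κ A c (Nat.unpair (k - 256)).1 (Nat.unpair (Nat.unpair (k - 256)).2).1
    (Nat.unpair (Nat.unpair (k - 256)).2).2

lemma TT_rel (hκ : ∀ g s i, κ (g * s) i = κ g (κ s i)) (g : ℕ) (hg : g < 24)
    (l : List (ℕ × ℕ)) (p q p' q' : ℕ) (hp : κ (pg g) (zt d p) = zt d p')
    (hq : κ (pg g) (zt d q) = zt d q') :
    TT κ A c (code (rel g l)) p' q' = TT κ A c (code l) p q := by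
  unfold TT
  refine Fintype.sum_equiv (Equiv.mulRight (pg g)) _ _ fun h => ?_
  simp only [Equiv.coe_mulRight]
  rw [hκ, hκ, hp, hq]
  congr 3
  rw [chi_code, chi_code, rel, List.map_map]
  congr 1
  refine List.map_congr_left fun e _ => ?_
  simp only [Function.comp]
  rw [← im_ix g hg, ← im_ix g hg]
  rfl

lemma TT_sw (hA : A.IsHermitian) (l : List (ℕ × ℕ)) (p q : ℕ) :
    TT κ A c (code (sw l)) q p = TT κ A c (code l) p q := by
  unfold TT
  refine Finset.sum_congr rfl fun h _ => ?_
  rw [chi_sw _ (fun i j => (hA.apply (h j) (h i)).symm)]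
  rw [← Complex.conj_re]
  congr 1
  simp only [map_mul, starRingEnd_apply, star_star]
  ring

lemma zt_mod (p : ℕ) : zt d (p % d) = zt d p := by
  simp [zt]

lemma TT_mod (e p q : ℕ) : TT κ A c e (p % d) (q % d) = TT κ A c e p q := by
  unfold TT
  rw [zt_mod, zt_mod]

lemma VV_cls (t : Tb) (hκ : ∀ g s i, κ (g * s) i = κ g (κ s i)) (hA : A.IsHermitian)
    (ht : chkT t d) (hk : ∀ g < 24, ∀ p, κ (pg g) (zt d p) = zt d (imk t d g p))
    (e p q : ℕ) : VV κ A c t (cls t.T2 d e p q) = TT κ A c e p q := by
  unfold cls
  cases hb : Nat.beq (key t.T2 (hid e)) e with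
  | false =>
    simp only [cond_false]
    have h1 : ¬ (Nat.add 256 (Nat.pair e (Nat.pair p q)) < 256) := by
      change ¬ (256 + Nat.pair e (Nat.pair p q) < 256)
      omega
    have h2 : Nat.add 256 (Nat.pair e (Nat.pair p q)) - 256 = Nat.pair e (Nat.pair p q) := by
      change 256 + Nat.pair e (Nat.pair p q) - 256 = _
      omega
    unfold VV
    rw [if_neg h1, h2]
    simp only [Nat.unpair_pair]
  | true =>
    simp only [cond_true]
    have hkey : key t.T2 (hid e) = e := Nat.eq_of_beq_eq_true hb
    have hlt : cl t.T2 (hid e) (Nat.mod p d) (Nat.mod q d) < 256 := by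
      unfold cl
      exact Nat.and_lt_two_pow (n := 8) _ (by norm_num)
    unfold VV
    rw [if_pos hlt]
    have hp : Nat.mod p d < d := Nat.mod_lt _ (NeZero.pos d)
    have hq : Nat.mod q d < d := Nat.mod_lt _ (NeZero.pos d)
    have h := ht (hid e) (hid_lt e) _ hp _ hq
    unfold chkW at h
    simp only at h
    set w := Nat.land (Nat.shiftRight t.WT (Nat.mul 6 (Nat.add (Nat.mul 16 (hid e))
      (Nat.add (Nat.mul 4 (Nat.mod p d)) (Nat.mod q d))))) 63 with hw
    set r := rp t (cl t.T2 (hid e) (Nat.mod p d) (Nat.mod q d)) with hr
    split_ifs at h with hw32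
    · simp only [Bool.and_eq_true, decide_eq_true_eq] at h
      obtain ⟨hg, hc, h1, h2⟩ := h
      rw [← TT_rel κ A c hκ (w % 32) hg r.1 r.2.1 r.2.2 _ _ (hk _ hg _) (hk _ hg _), hc, h1, h2,
        hkey]
      exact TT_mod κ A c e p q
    · simp only [Bool.and_eq_true, decide_eq_true_eq] at h
      obtain ⟨hg, hc, h1, h2⟩ := h
      rw [← TT_rel κ A c hκ (w % 32) hg r.1 r.2.1 r.2.2 _ _ (hk _ hg _) (hk _ hg _),
        ← TT_sw κ A c hA, hc, h1, h2, hkey]
      exact TT_mod κ A c e p q

end

end Pool.Agent.W502.POT
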